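import Pool.Agent.D0H34.KC.Stm3

/-!
Module TT of project KC (helper34), third round: double transitivity (after `Pool/Agent/N78/CF/TR2.lean`).
-/

set_option autoImplicit false

open Polynomial IntermediateField

namespace Pool.Agent.D0H3.KC

open Pool.Agent.D0H34.KC

theorem normalQ : Normal ℚ (AlgebraicClosure ℚ) := by
  have h : ∀ (F : Type) [Field F], Normal F (AlgebraicClosure F) := fun F _ => inferInstance
  have h1 := h ℚ
  convert h1 using 1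
  all_goals exact Subsingleton.elim _ _

/-- embeddings extend to automorphisms -/
theorem lift_emb (L : IntermediateField ℚ (AlgebraicClosure ℚ))
    (χ : L →ₐ[ℚ] AlgebraicClosure ℚ) :
    ∃ σ : AlgebraicClosure ℚ ≃ₐ[ℚ] AlgebraicClosure ℚ, ∀ x : L, σ (x : AlgebraicClosure ℚ) = χ x := by
  have hN : Normal ℚ (AlgebraicClosure ℚ) := normalQ
  let φ : AlgebraicClosure ℚ →ₐ[ℚ] AlgebraicClosure ℚ := χ.liftNormal (AlgebraicClosure ℚ)
  refine ⟨AlgEquiv.ofBijective φ (AlgHom.normal_bijective ℚ _ _ φ), fun x => ?_⟩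
  exact χ.liftNormal_commutes (AlgebraicClosure ℚ) x

/-- embeddings are determined by the value at `θ` -/
theorem ext_gen {θ : AlgebraicClosure ℚ} (hθ : IsIntegral ℚ θ) {A : Type} [Field A] [Algebra ℚ A]
    {φ ψ : ℚ⟮θ⟯ →ₐ[ℚ] A}
    (he : φ (AdjoinSimple.gen ℚ θ) = ψ (AdjoinSimple.gen ℚ θ)) : φ = ψ := by
  apply (adjoin.powerBasis hθ).algHom_ext
  rw [adjoin.powerBasis_gen]
  exact he

theorem core (fQ : ℚ[X]) (θ : AlgebraicClosure ℚ) (hint : IsIntegral ℚ θ) (hroot0 : aeval θ fQ = 0)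
    (k : ℚ⟮θ⟯[X]) (hk : fQ.map (algebraMap ℚ ℚ⟮θ⟯) = (X - C (AdjoinSimple.gen ℚ θ)) * k)
    (hkirr : Irreducible k) (φ ψ φ' ψ' : ℚ⟮θ⟯ →ₐ[ℚ] AlgebraicClosure ℚ) (hne : φ ≠ ψ) (hne' : φ' ≠ ψ') :
    ∃ σ : AlgebraicClosure ℚ ≃ₐ[ℚ] AlgebraicClosure ℚ,
      σ.toAlgHom.comp φ = φ' ∧ σ.toAlgHom.comp ψ = ψ' := by
  have hgroot : aeval (AdjoinSimple.gen ℚ θ) fQ = 0 := by
    have h1 : algebraMap ℚ⟮θ⟯ (AlgebraicClosure ℚ) (aeval (AdjoinSimple.gen ℚ θ) fQ) = 0 := by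
      rw [← aeval_algebraMap_apply, AdjoinSimple.algebraMap_gen]
      exact hroot0
    exact (map_eq_zero _).mp h1
  obtain ⟨τφ, hτφ⟩ := lift_emb ℚ⟮θ⟯ φ
  obtain ⟨τ, hτ⟩ := lift_emb ℚ⟮θ⟯ φ'
  obtain ⟨σ₁, hσ₁⟩ : ∃ σ₁ : AlgebraicClosure ℚ ≃ₐ[ℚ] AlgebraicClosure ℚ, ∀ x : ℚ⟮θ⟯,
      σ₁ (φ x) = φ' x := by
    refine ⟨τφ.symm.trans τ, fun x => ?_⟩
    rw [← hτφ, AlgEquiv.trans_apply, AlgEquiv.symm_apply_apply, hτ]
  set g : ℚ⟮θ⟯ := AdjoinSimple.gen ℚ θ with hg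
  have hψ₁ : σ₁ (ψ g) ≠ φ' g := by
    intro h
    rw [← hσ₁] at h
    exact hne (ext_gen hint (σ₁.injective h)).symm
  have hψ' : ψ' g ≠ φ' g := fun h => hne' (ext_gen hint h).symm
  have hroot : ∀ z : AlgebraicClosure ℚ, aeval z fQ = 0 → z ≠ φ' g →
      aeval (τ.symm z) k = 0 := by
    intro z hz hzne
    have h1 : aeval (τ.symm z) fQ = 0 := by
      have h2 := congrArg τ.symm hz
      rw [map_zero] at h2
      rw [← h2]
      exact (aeval_algHom_apply τ.symm.toAlgHom z fQ)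
    have h3 : aeval (τ.symm z) (fQ.map (algebraMap ℚ ℚ⟮θ⟯)) = 0 := by
      rw [aeval_map_algebraMap]
      exact h1
    rw [hk, map_mul] at h3
    rcases mul_eq_zero.1 h3 with h4 | h4
    · exfalso
      rw [map_sub, aeval_X, aeval_C, sub_eq_zero] at h4
      apply hzne
      have h5 := congrArg τ h4
      rw [AlgEquiv.apply_symm_apply] at h5
      rw [h5]
      exact hτ g
    · exact h4
  have hz1 : aeval (σ₁ (ψ g)) fQ = 0 := by
    have h1 : aeval (ψ g) fQ = 0 := by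
      rw [aeval_algHom_apply, hgroot, map_zero]
    have h2 : aeval (σ₁ (ψ g)) fQ = σ₁ (aeval (ψ g) fQ) :=
      aeval_algHom_apply σ₁.toAlgHom (ψ g) fQ
    rw [h2, h1, map_zero]
  have hz2 : aeval (ψ' g) fQ = 0 := by
    rw [aeval_algHom_apply, hgroot, map_zero]
  have ha := hroot _ hz1 hψ₁
  have hb := hroot _ hz2 hψ'
  have hconj : IsConjRoot ℚ⟮θ⟯ (τ.symm (σ₁ (ψ g))) (τ.symm (ψ' g)) := by
    rw [isConjRoot_def, ← minpoly.eq_of_irreducible hkirr ha, ← minpoly.eq_of_irreducible hkirr hb]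
  have hN0 : Normal ℚ (AlgebraicClosure ℚ) := normalQ
  have hN : Normal ℚ⟮θ⟯ (AlgebraicClosure ℚ) :=
    Normal.tower_top_of_normal ℚ ℚ⟮θ⟯ (AlgebraicClosure ℚ)
  obtain ⟨ρ, hρ⟩ := hconj.symm.exists_algEquiv
  let ρF : AlgebraicClosure ℚ ≃ₐ[ℚ] AlgebraicClosure ℚ := ρ.restrictScalars ℚ
  let σ₂ : AlgebraicClosure ℚ ≃ₐ[ℚ] AlgebraicClosure ℚ := (τ.symm.trans ρF).trans τ
  have h21 : ∀ x : ℚ⟮θ⟯, σ₂ (φ' x) = φ' x := by
    intro x
    show τ (ρ (τ.symm (φ' x))) = φ' x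
    rw [← hτ, AlgEquiv.symm_apply_apply]
    have : ρ ((x : ℚ⟮θ⟯) : AlgebraicClosure ℚ) = (x : AlgebraicClosure ℚ) := ρ.commutes x
    rw [this]
  have h22 : σ₂ (σ₁ (ψ g)) = ψ' g := by
    show τ (ρ (τ.symm (σ₁ (ψ g)))) = ψ' g
    rw [hρ, AlgEquiv.apply_symm_apply]
  refine ⟨σ₁.trans σ₂, ?_, ?_⟩
  · refine AlgHom.ext fun x => ?_
    show σ₂ (σ₁ (φ x)) = φ' x
    rw [hσ₁, h21]
  · refine ext_gen hint ?_
    exact h22

theorem t_TT : S_TT := by
  intro f p _ t E hf hirr hE hEirr hfac θ hθ φ ψ φ' ψ' hne hne'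
  have hfQm : (f.map (Int.castRingHom ℚ)).Monic := hf.map _
  have hfQirr : Irreducible (f.map (Int.castRingHom ℚ)) :=
    (Polynomial.Monic.irreducible_iff_irreducible_map_fraction_map (K := ℚ) hf).mp hirr
  have hθQ : aeval θ (f.map (Int.castRingHom ℚ)) = 0 := by
    have : aeval θ (f.map (algebraMap ℤ ℚ)) = aeval θ f := aeval_map_algebraMap ℚ θ f
    exact this.trans hθ
  have hmin : minpoly ℚ θ = f.map (Int.castRingHom ℚ) :=
    (minpoly.eq_of_irreducible_of_monic hfQirr hθQ hfQm).symm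
  have hint : IsIntegral ℚ θ := ⟨_, hfQm, hθQ⟩
  -- the embedding into `ℚ_[p]`
  have htroot : t ∈ (minpoly ℚ θ).aroots ℚ_[p] := by
    rw [mem_aroots]
    refine ⟨minpoly.ne_zero hint, ?_⟩
    rw [hmin]
    have h1 : aeval t (f.map (algebraMap ℤ ℚ)) = aeval t f := aeval_map_algebraMap ℚ t f
    have h2 : aeval t f = (f.map (Int.castRingHom ℚ_[p])).eval t := by
      rw [eval_map, aeval_def]; rfl
    have h3 : aeval t f = 0 := by rw [h2, hfac]; simp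
    exact h1.trans h3
  let ι : ℚ⟮θ⟯ →ₐ[ℚ] ℚ_[p] := (algHomAdjoinIntegralEquiv ℚ hint).symm ⟨t, htroot⟩
  have hι : ι (AdjoinSimple.gen ℚ θ) = t := algHomAdjoinIntegralEquiv_symm_apply_gen ℚ hint ⟨t, htroot⟩
  have hgroot : aeval (AdjoinSimple.gen ℚ θ) (f.map (Int.castRingHom ℚ)) = 0 := by
    have h1 : algebraMap ℚ⟮θ⟯ (AlgebraicClosure ℚ)
        (aeval (AdjoinSimple.gen ℚ θ) (f.map (Int.castRingHom ℚ))) = 0 := by
      rw [← aeval_algebraMap_apply, AdjoinSimple.algebraMap_gen]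
      exact hθQ
    exact (map_eq_zero _).mp h1
  have hdvd : (X - C (AdjoinSimple.gen ℚ θ)) ∣
      (f.map (Int.castRingHom ℚ)).map (algebraMap ℚ ℚ⟮θ⟯) := by
    rw [dvd_iff_isRoot, IsRoot.def, eval_map_algebraMap]
    exact hgroot
  obtain ⟨k, hk⟩ := hdvd
  have hkE : k.map ι.toRingHom = E := by
    have h1 := congrArg (Polynomial.map ι.toRingHom) hk
    rw [Polynomial.map_mul, Polynomial.map_sub, map_X, map_C] at h1
    have h2 : ι.toRingHom (AdjoinSimple.gen ℚ θ) = t := hι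
    rw [h2] at h1
    have h3 : ((f.map (Int.castRingHom ℚ)).map (algebraMap ℚ ℚ⟮θ⟯)).map ι.toRingHom =
        f.map (Int.castRingHom ℚ_[p]) := by
      rw [Polynomial.map_map, Polynomial.map_map]
      congr 1
      exact RingHom.ext_int _ _
    rw [h3, hfac] at h1
    exact (mul_left_cancel₀ (X_sub_C_ne_zero t) h1).symm
  have hkm : k.Monic := by
    have h1 : ((f.map (Int.castRingHom ℚ)).map (algebraMap ℚ ℚ⟮θ⟯)).Monic := hfQm.map _
    rw [hk] at h1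
    exact (monic_X_sub_C _).of_mul_monic_left h1
  have hkirr : Irreducible k := by
    apply Polynomial.Monic.irreducible_of_irreducible_map ι.toRingHom k hkm
    rw [hkE]; exact hEirr
  exact core _ θ hint hθQ k hk hkirr φ ψ φ' ψ' hne hne'

end Pool.Agent.D0H3.KC
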